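import Pool.Agent.H.MP_a33cdf_gt.D

set_option autoImplicit false
open Set Classical Filter Topology

namespace Pool.Agent.Results.MP_b9a716_gt.LSpace
open Pool.Agent.H.MP_7a24ab_lc Pool.Agent.H.MP_a33cdf_gt

/-- `C_p(Y)`: continuous real functions with the topology of pointwise convergence. -/
abbrev Cp (Y : Type) [TopologicalSpace Y] : Type := {f : Y → ℝ // Continuous f}

/-- g-space: every set countably compact in `Z` has compact closure. -/
def GSpace (Z : Type) [TopologicalSpace Z] : Prop :=
  ∀ A : Set Z, (∀ S ⊆ A, S.Infinite → ∃ x : Z, AccPt x (𝓟 S)) → IsCompact (closure A)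

/-- Grothendieck: every subspace of `C_p(Y)` is a g-space. -/
def Grothendieck (Y : Type) [TopologicalSpace Y] : Prop := ∀ Z : Set (Cp Y), GSpace Z

lemma groth {Y : Type} [TopologicalSpace Y] {ht : Y → W} (hi : Function.Injective ht)
    (hY : IsInducing fun y => z (ht y)) : Grothendieck Y := by
  intro Z A hA
  let ι : Z → Y → ℝ := fun g => g.1.1
  have hι : IsEmbedding ι := IsEmbedding.subtypeVal.comp IsEmbedding.subtypeVal
  have L0 : ∀ g : ℕ → Y → ℝ, (∀ n, g n ∈ ι '' A) → ∃ x, MapClusterPt (ι x) atTop g := fun g hg => by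
    choose a a1 a2 using hg
    obtain rfl : g = ι ∘ a := (funext a2).symm
    suffices ∃ x, MapClusterPt x atTop a from this.imp fun x h => h.continuousAt_comp hι.continuous.continuousAt
    by_cases h : (range a).Finite
    · exact (h.isCompact.exists_mapClusterPt (le_principal_iff.2 range_mem_map)).imp fun _ h => h.2
    obtain ⟨x, hx⟩ := hA _ (range_subset_iff.2 a1) h
    refine ⟨x, mapClusterPt_iff_frequently.2 fun U hU => by_contra fun k => Infinite.of_accPt (hx.nhds_inter hU) ?_⟩
    rw [← Nat.cofinite_eq_atTop, not_frequently, eventually_cofinite] at k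
    exact (k.image a).subset (by rintro _ ⟨h, n, rfl⟩; exact ⟨n, by simpa, rfl⟩)
  have hK : IsCompact (closure (ι '' A)) := by
    have : ∀ y, ∃ n : ℕ, ∀ g ∈ ι '' A, |g y| ≤ n := fun y => by
      by_contra! k
      choose g g1 g2 using k
      obtain ⟨x, hx⟩ := L0 g g1
      obtain ⟨n, n1, n2⟩ := ((mapClusterPt_iff_frequently.1 hx {h | |h y| < |ι x y| + 1} ((isOpen_lt (by fun_prop)
        continuous_const).mem_nhds (lt_add_one |ι x y|))).and_eventually (tendsto_natCast_atTop_atTop.eventually_ge_atTop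
          (|ι x y| + 1))).exists
      exact (n1.trans_le n2).not_gt (g2 n)
    choose n hn using this
    have := isCompact_univ_pi fun y => isCompact_Icc (a := -(n y : ℝ)) (b := n y)
    exact this.of_isClosed_subset isClosed_closure (closure_minimal (fun g hg y _ => abs_le.1 (hn y g hg)) this.isClosed)
  have S2 : ∀ S ⊆ ι '' A, S.Countable → closure S ⊆ range ι := fun S hS Sc f hf => by
    have : ∀ g, ∃ d, g ∈ S → fac ht d g := fun g => by
      by_cases h : g ∈ S
      · obtain ⟨x, -, rfl⟩ := hS h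
        exact (exfac hY x.1.2).imp fun _ k _ => k
      · exact ⟨⊥, fun k => (h k).elim⟩
    choose D hD using this
    obtain ⟨d, hd⟩ := bdd (Sc.image D)
    have fS : S ⊆ {g | fac ht d g} := fun g hg => (hD g hg).mono (hd _ ⟨g, hg, rfl⟩).le
    obtain ⟨P, P1, P2⟩ := reps hi d
    obtain ⟨g, g1, g2⟩ := sq P1 hf
    obtain ⟨x, hx⟩ := L0 g fun n => hS (g1 n)
    refine ⟨x, eq_of_nhds_neBot (hx.clusterPt.mono (tendsto_pi_nhds.2 fun y => ?_))⟩
    obtain ⟨v, v1, v2⟩ := P2 y
    rw [v2 f (closure_minimal fS (fac_cl d) hf)]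
    exact (g2 v v1).congr fun n => (v2 _ (fS (g1 n))).symm
  rw [hι.closure_eq_preimage_closure_image]
  refine hι.isCompact_preimage' hK fun f hf => ?_
  have : ∀ n, ∃ S ⊆ ι '' A, S.Countable ∧ ∃ G ∈ closure S, ∀ v, ht v < n → G v = f v := fun n => by
    obtain ⟨g, g1, g2⟩ := sq ((cIio n).preimage hi) hf
    obtain ⟨G, -, hG⟩ := hK.exists_mapClusterPt (f := atTop) (u := g)
      (le_principal_iff.2 (mem_map.2 (univ_mem' fun n => subset_closure (g1 n))))
    exact ⟨_, range_subset_iff.2 g1, countable_range g, G, mem_closure_iff_clusterPt.2 (hG.clusterPt.mono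
      (le_principal_iff.2 range_mem_map)), fun v hv => eq_of_nhds_neBot
        ((hG.continuousAt_comp (continuous_apply v).continuousAt).clusterPt.mono (g2 v hv))⟩
  choose S S1 S3 G G1 G2 using this
  obtain ⟨n, rfl⟩ := core hY hK (fun n => closure_mono (S1 n) (G1 n)) (fun d h hh => by
    obtain ⟨x, rfl⟩ := S2 _ (iUnion₂_subset fun n _ => S1 n) ((cIio d).biUnion fun n _ => S3 n) (closure_minimal (by
      rintro _ ⟨n, hn, rfl⟩; exact closure_mono (subset_biUnion_of_mem (u := S) hn) (G1 n)) isClosed_closure hh)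
    exact x.1.2) G2
  exact S2 _ (S1 n) (S3 n) (G1 n)

theorem result : ∃ (X : Type) (_ : TopologicalSpace X), T35Space X ∧ (∀ Y : Set X, Grothendieck Y) ∧
    ¬ TopologicalSpace.SeparableSpace X := by
  have : ∀ x : range z, ∃ b, z b = x.1 := fun x => x.2
  choose ht hh using this
  refine ⟨range z, inferInstance, inferInstance, fun Y => groth (ht := fun y => ht y.1)
    (fun a b e => Subtype.ext (Subtype.ext (by rw [← hh, ← hh]; exact congrArg z e))) ?_, fun ⟨D, D1, D2⟩ => ?_⟩
  · simp only [hh]; exact IsInducing.subtypeVal.comp IsInducing.subtypeVal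
  obtain ⟨g, hg⟩ := bdd (D1.image ht)
  obtain ⟨c, hc⟩ := dens (b := id) (μ := id) (fun _ => le_rfl) fun g => ⟨g, le_rfl⟩
  obtain ⟨b, hb⟩ := hc {max g c} (by simp) 1
  have := closure_minimal (t := {y : range z | y.1 (max g c) = 0}) (fun y hy => by
    simp [← hh, z, (hg _ ⟨y, hy, rfl⟩).le]) (isClosed_eq ((continuous_apply _).comp continuous_subtype_val)
      continuous_const) (D2 ⟨z b, b, rfl⟩)
  have k := hb _ (Finset.mem_singleton_self _)
  simp only [mem_setOf_eq, z, show max g c < b from k.1, if_true, show w b _ = _ from k.2] at this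
  simp at this

end Pool.Agent.Results.MP_b9a716_gt.LSpace
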